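import Mathlib

set_option autoImplicit false
open MeasureTheory Filter Topology Complex
open scoped ContDiff ENNReal

namespace Pool.Agent.U319.SG

/-- stationarity: the law of the value at `w` does not depend on `w` -/
theorem stat {Ω : Type*} [MeasurableSpace Ω] (μ : Measure Ω) (S : ℂ → Ω → Ω)
    (hS : ∀ x, Measurable (S x)) (hμ : ∀ x, μ.map (S x) = μ) (X : Ω → ℂ → ℝ)
    (hXm : ∀ z, Measurable fun f => X f z) (hXs : ∀ f x z, X (S x f) z = X f (z + x))
    (g : ℝ → ℝ≥0∞) (hg : Measurable g) (w : ℂ) :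
    ∫⁻ f, g (X f w) ∂μ = ∫⁻ f, g (X f 0) ∂μ := by
  have h1 : ∫⁻ f, g (X f 0) ∂(μ.map (S w)) = ∫⁻ f, g (X (S w f) 0) ∂μ :=
    lintegral_map (hg.comp (hXm 0)) (hS w)
  rw [hμ w] at h1
  rw [h1]
  refine lintegral_congr fun f => ?_
  rw [hXs, zero_add]

theorem trunc {Ω : Type*} [MeasurableSpace Ω] (μ : Measure Ω) [IsProbabilityMeasure μ]
    (S : ℂ → Ω → Ω)
    (hS : ∀ x, Measurable (S x)) (hμ : ∀ x, μ.map (S x) = μ) (X : Ω → ℂ → ℝ)
    (hXc : ∀ f, Continuous (X f))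
    (hXm : ∀ z, Measurable fun f => X f z) (hXs : ∀ f x z, X (S x f) z = X f (z + x))
    (t : ℕ → ℝ) (B : ℝ) (hB : 0 ≤ B) (φ : ℂ → ℝ) (hφc : Continuous φ)
    (hφs : HasCompactSupport φ) (hφ0 : ∀ z, 0 ≤ φ z) (hφ1 : ∫ z, φ z = 1)
    (h : ∀ᵐ f ∂μ, ∀ ε : ℝ, 0 < ε → ∀ᶠ n in atTop,
      ∫ z, φ z * (X f ((t n : ℂ) * z)) ^ 2 ≤ B + ε) (K : ℕ) :
    ∫⁻ f, ENNReal.ofReal (min ((X f 0) ^ 2) K) ∂μ ≤ ENNReal.ofReal B := by
  set cK := ∫⁻ f, ENNReal.ofReal (min ((X f 0) ^ 2) K) ∂μ with hcK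
  have hgm : Measurable fun y : ℝ => ENNReal.ofReal (min (y ^ 2) K) := by fun_prop
  have hφi : Integrable φ := hφc.integrable_of_hasCompactSupport hφs
  have hφl : ∫⁻ z, ENNReal.ofReal (φ z) = 1 := by
    rw [← ofReal_integral_eq_lintegral_ofReal hφi (ae_of_all _ hφ0), hφ1, ENNReal.ofReal_one]
  set A : ℕ → Ω → ℝ≥0∞ := fun n f =>
    ∫⁻ z, ENNReal.ofReal (φ z) * ENNReal.ofReal (min ((X f ((t n : ℂ) * z)) ^ 2) K) with hA
  have hjm : ∀ n, Measurable (Function.uncurry fun (z : ℂ) (f : Ω) =>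
      ENNReal.ofReal (φ z) * ENNReal.ofReal (min ((X f ((t n : ℂ) * z)) ^ 2) K)) := by
    intro n
    have h1 : Measurable (Function.uncurry fun (z : ℂ) (f : Ω) => X f ((t n : ℂ) * z)) := by
      refine measurable_uncurry_of_continuous_of_measurable (fun f => ?_) fun z => ?_
      · have h3 : Continuous fun z : ℂ => (t n : ℂ) * z := by fun_prop
        exact (hXc f).comp h3
      · exact hXm _
    have h2 : Measurable fun p : ℂ × Ω => ENNReal.ofReal (φ p.1) :=
      (hφc.measurable.comp measurable_fst).ennreal_ofReal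
    exact h2.mul (hgm.comp h1)
  have hAm : ∀ n, Measurable (A n) := fun n => (hjm n).lintegral_prod_left'
  have hAi : ∀ n, ∫⁻ f, A n f ∂μ = cK := by
    intro n
    calc ∫⁻ f, A n f ∂μ
        = ∫⁻ z, (∫⁻ f, ENNReal.ofReal (φ z) *
            ENNReal.ofReal (min ((X f ((t n : ℂ) * z)) ^ 2) K) ∂μ) :=
          (lintegral_lintegral_swap (μ := volume) (ν := μ) (f := fun (z : ℂ) (f : Ω) =>
            ENNReal.ofReal (φ z) * ENNReal.ofReal (min ((X f ((t n : ℂ) * z)) ^ 2) K))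
            (hjm n).aemeasurable).symm
      _ = ∫⁻ z, ENNReal.ofReal (φ z) * cK := by
          refine lintegral_congr fun z => ?_
          have hm1 : Measurable fun f : Ω =>
              ENNReal.ofReal (min ((X f ((t n : ℂ) * z)) ^ 2) K) := hgm.comp (hXm _)
          have hs1 : ∫⁻ f, ENNReal.ofReal (min ((X f ((t n : ℂ) * z)) ^ 2) K) ∂μ = cK :=
            stat μ S hS hμ X hXm hXs _ hgm ((t n : ℂ) * z)
          rw [lintegral_const_mul _ hm1, hs1]
      _ = cK := by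
          rw [lintegral_mul_const _ hφc.measurable.ennreal_ofReal, hφl, one_mul]
  have hAK : ∀ n, A n ≤ᵐ[μ] fun _ => (K : ℝ≥0∞) := by
    intro n
    refine ae_of_all _ fun f => ?_
    calc A n f ≤ ∫⁻ z, ENNReal.ofReal (φ z) * (K : ℝ≥0∞) := by
          refine lintegral_mono fun z => ?_
          gcongr
          refine (ENNReal.ofReal_le_ofReal (min_le_right _ _)).trans ?_
          rw [ENNReal.ofReal_natCast]
      _ = K := by
          rw [lintegral_mul_const _ hφc.measurable.ennreal_ofReal, hφl, one_mul]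
  have hlim : ∀ᵐ f ∂μ, limsup (fun n => A n f) atTop ≤ ENNReal.ofReal B := by
    filter_upwards [h] with f hf
    have key : ∀ ε : ℝ, 0 < ε → limsup (fun n => A n f) atTop ≤ ENNReal.ofReal (B + ε) := by
      intro ε hε
      refine limsup_le_of_le (by isBoundedDefault) ?_
      filter_upwards [hf ε hε] with n hn
      have hc : Continuous fun z : ℂ => φ z * (X f ((t n : ℂ) * z)) ^ 2 := by
        have h3 : Continuous fun z : ℂ => (t n : ℂ) * z := by fun_prop
        exact hφc.mul (((hXc f).comp h3).pow 2)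
      have hi : Integrable fun z : ℂ => φ z * (X f ((t n : ℂ) * z)) ^ 2 :=
        hc.integrable_of_hasCompactSupport hφs.mul_right
      calc A n f ≤ ∫⁻ z, ENNReal.ofReal (φ z * (X f ((t n : ℂ) * z)) ^ 2) := by
            refine lintegral_mono fun z => ?_
            rw [ENNReal.ofReal_mul (hφ0 z)]
            gcongr
            exact min_le_left _ _
        _ = ENNReal.ofReal (∫ z, φ z * (X f ((t n : ℂ) * z)) ^ 2) :=
            (ofReal_integral_eq_lintegral_ofReal hi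
              (ae_of_all _ fun z => mul_nonneg (hφ0 z) (sq_nonneg _))).symm
        _ ≤ ENNReal.ofReal (B + ε) := ENNReal.ofReal_le_ofReal hn
    refine ENNReal.le_of_forall_pos_le_add fun ε hε _ => ?_
    have h1 := key ε (by exact_mod_cast hε)
    rwa [ENNReal.ofReal_add hB (NNReal.coe_nonneg ε), ENNReal.ofReal_coe_nnreal] at h1
  have hfat := limsup_lintegral_le (μ := μ) (f := A) (fun _ => (K : ℝ≥0∞)) hAm hAK (by
    rw [lintegral_const, measure_univ, mul_one]
    exact ENNReal.natCast_ne_top K)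
  simp only [hAi] at hfat
  rw [limsup_const] at hfat
  calc cK ≤ ∫⁻ f, limsup (fun n => A n f) atTop ∂μ := hfat
    _ ≤ ∫⁻ _, ENNReal.ofReal B ∂μ := lintegral_mono_ae hlim
    _ = ENNReal.ofReal B := by rw [lintegral_const, measure_univ, mul_one]

theorem abs_xb {Ω : Type*} [MeasurableSpace Ω] (μ : Measure Ω) [IsProbabilityMeasure μ]
    (S : ℂ → Ω → Ω)
    (hS : ∀ x, Measurable (S x)) (hμ : ∀ x, μ.map (S x) = μ) (X : Ω → ℂ → ℝ)
    (hXc : ∀ f, Continuous (X f))
    (hXm : ∀ z, Measurable fun f => X f z) (hXs : ∀ f x z, X (S x f) z = X f (z + x))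
    (t : ℕ → ℝ) (B : ℝ) (hB : 0 ≤ B) (φ : ℂ → ℝ) (hφc : Continuous φ)
    (hφs : HasCompactSupport φ) (hφ0 : ∀ z, 0 ≤ φ z) (hφ1 : ∫ z, φ z = 1)
    (h : ∀ᵐ f ∂μ, ∀ ε : ℝ, 0 < ε → ∀ᶠ n in atTop,
      ∫ z, φ z * (X f ((t n : ℂ) * z)) ^ 2 ≤ B + ε) :
    ∫⁻ f, ENNReal.ofReal ((X f 0) ^ 2) ∂μ ≤ ENNReal.ofReal B := by
  have hmeas : ∀ K : ℕ, Measurable fun f : Ω => ENNReal.ofReal (min ((X f 0) ^ 2) K) :=
    fun K => (((hXm 0).pow_const 2).min measurable_const).ennreal_ofReal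
  have hten := lintegral_tendsto_of_tendsto_of_monotone (μ := μ)
    (f := fun (K : ℕ) (f : Ω) => ENNReal.ofReal (min ((X f 0) ^ 2) K))
    (F := fun f : Ω => ENNReal.ofReal ((X f 0) ^ 2)) (fun K => (hmeas K).aemeasurable)
    (ae_of_all _ fun f => fun K L hKL => ENNReal.ofReal_le_ofReal
      (min_le_min le_rfl (by exact_mod_cast hKL)))
    (ae_of_all _ fun f => by
      refine tendsto_const_nhds.congr' ?_
      filter_upwards [eventually_ge_atTop ⌈(X f 0) ^ 2⌉₊] with K hK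
      have : (X f 0) ^ 2 ≤ K := (Nat.le_ceil _).trans (by exact_mod_cast hK)
      rw [min_eq_left this])
  exact le_of_tendsto' hten fun K =>
    trunc μ S hS hμ X hXc hXm hXs t B hB φ hφc hφs hφ0 hφ1 h K

end Pool.Agent.U319.SG
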