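import Pool.Agent.U26.SG.Stm4
import Pool.Agent.N661.BR.Base
import Pool.Agent.U319.SG.XA

/-!
# Project SG, package XB (helper319): the fourth moments of the differences
-/

set_option autoImplicit false
open MeasureTheory Filter Topology Complex
open scoped ContDiff ENNReal

namespace Pool.Agent.U319.SG

open Pool.Agent.W745.RW (TF W)
open Pool.Agent.N661.BR (MW IsStationary shift meas_shift W_shift W_cont meas_W)
open Pool.Agent.U26.SG (S_XB Good UF)

theorem test_fn : ∃ φ : ℂ → ℝ, TF Set.univ φ ∧ (∀ z, 0 ≤ φ z) ∧ ∫ z, φ z = 1 := by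
  let b : ContDiffBump (0 : ℂ) := ⟨1, 2, one_pos, by norm_num⟩
  refine ⟨fun z => b.normed volume z, ⟨b.contDiff_normed, b.hasCompactSupport_normed,
    Set.subset_univ _⟩, fun z => b.nonneg_normed z, b.integral_normed⟩

theorem t_XB : S_XB := by
  intro μ hμp hμ c t ht hG p J
  obtain ⟨φ, hφ, hφ0, hφ1⟩ := test_fn
  have hB : (0 : ℝ) ≤ 4 * c ^ 2 := by positivity
  have main := abs_xb μ (fun x : ℂ => shift x) (fun x => meas_shift x) (fun x => hμ x)
    (fun (f : MW) (z : ℂ) => ‖W 1 f (2 * (J : ℤ) + p) z‖ ^ 2 - ‖W 1 f p z‖ ^ 2)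
    (fun f => (((W_cont f _).norm.pow 2)).sub ((W_cont f _).norm.pow 2))
    (fun z => ((meas_W _ z).norm.pow_const 2).sub ((meas_W _ z).norm.pow_const 2))
    (fun f x z => by simp only [W_shift]) t (4 * c ^ 2) hB φ hφ.1.continuous hφ.2.1 hφ0 hφ1 (by
      filter_upwards [hG] with f hf ε hε
      obtain ⟨m, hm, hg⟩ := hf
      filter_upwards [hg.four φ hφ hφ0 p J ε hε] with n hn
      rw [hφ1, mul_one] at hn
      have h2 : 4 * m ^ 2 ≤ 4 * c ^ 2 := by
        have := pow_le_pow_left₀ hg.nonneg hm 2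
        linarith
      have h3 : ∫ z, φ z * (‖W 1 f (2 * (J : ℤ) + p) ((t n : ℂ) * z)‖ ^ 2 -
          ‖W 1 f p ((t n : ℂ) * z)‖ ^ 2) ^ 2 ≤ 4 * m ^ 2 + ε := hn
      exact h3.trans (by linarith))
  exact main

end Pool.Agent.U319.SG
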